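import Pool.Agent.H14R3.Aug.Stmts

set_option autoImplicit false

namespace Pool.Agent.H801R3.Aug

open Pool.Agent.H14R3.Aug

theorem TaskFinal_proof : TaskFinal := by
  intro hB n k hk x hx hfin hEq
  classical
  let S : Finset (G n) := Finset.univ.biUnion fun j => (hfin j).toFinset
  have hS : ∀ j u, u ∉ S → x j u = 0 := by
    intro j u hu
    by_contra h
    apply hu
    rw [Finset.mem_biUnion]
    exact ⟨j, Finset.mem_univ _, (hfin j).mem_toFinset.2 h⟩
  have hsum : ∀ i, ∑ u ∈ S, x i u = 0 := fun i => by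
    have h := (hx i).2
    rw [tsum_eq_sum (s := S) (fun u hu => hS i u hu)] at h
    exact h
  obtain ⟨φ, C, hC, ⟨g, g', hg⟩, heq⟩ := hB n k hk x S hsum
  have hC0 : 0 ≤ C := (norm_nonneg _).trans (hC g)
  -- convolution products are finite sums
  have hconv : ∀ (j : Fin k) (f : G n → ℂ) (s : G n),
      convProd (x j) f s = ∑ u ∈ S, x j u * f (u⁻¹ * s) := by
    intro j f s
    unfold convProd
    exact tsum_eq_sum (fun u hu => by rw [hS j u hu, zero_mul])
  have hsh : ∀ (f : G n → ℂ), Summable (fun s => ‖f s‖) → ∀ u : G n,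
      Summable (fun s => ‖f (u⁻¹ * s)‖) := fun f hf u =>
    (Equiv.mulLeft u⁻¹).summable_iff.2 hf
  have hφs : ∀ (f : G n → ℂ), Summable (fun s => ‖f s‖) → Summable (fun s => f s * φ s) := by
    intro f hf
    refine Summable.of_norm_bounded (g := fun s => ‖f s‖ * C) (hf.mul_right C) fun s => ?_
    rw [norm_mul]
    exact mul_le_mul_of_nonneg_left (hC s) (norm_nonneg _)
  -- the functional vanishes on the convolution products
  have hzero : ∀ (j : Fin k) (f : G n → ℂ), Summable (fun s => ‖f s‖) →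
      ∑' s, convProd (x j) f s * φ s = 0 := by
    intro j f hf
    have h1 : ∀ u : G n, Summable (fun s => x j u * f (u⁻¹ * s) * φ s) := by
      intro u
      have := (hφs _ (hsh f hf u)).mul_left (x j u)
      refine this.congr fun s => ?_
      ring
    have h2 : ∑' s, convProd (x j) f s * φ s = ∑ u ∈ S, ∑' s, x j u * f (u⁻¹ * s) * φ s := by
      rw [← Summable.tsum_finsetSum (fun u _ => h1 u)]
      refine tsum_congr fun s => ?_
      rw [hconv, Finset.sum_mul]
    have h3 : ∀ u : G n, ∑' s, x j u * f (u⁻¹ * s) * φ s = ∑' h, f h * (x j u * φ (u * h)) := by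
      intro u
      rw [← (Equiv.mulLeft u).tsum_eq]
      refine tsum_congr fun h => ?_
      rw [Equiv.coe_mulLeft, inv_mul_cancel_left]
      ring
    have h4 : ∀ u : G n, Summable (fun h => f h * (x j u * φ (u * h))) := by
      intro u
      refine Summable.of_norm_bounded (g := fun s => ‖f s‖ * (‖x j u‖ * C)) (hf.mul_right _)
        fun s => ?_
      rw [norm_mul, norm_mul]
      exact mul_le_mul_of_nonneg_left (mul_le_mul_of_nonneg_left (hC _) (norm_nonneg _))
        (norm_nonneg _)
    rw [h2, Finset.sum_congr rfl (fun u _ => h3 u), ← Summable.tsum_finsetSum (fun u _ => h4 u)]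
    refine (tsum_congr fun h => ?_).trans tsum_zero
    rw [← Finset.mul_sum, heq j h, mul_zero]
  have hcs : ∀ (j : Fin k) (f : G n → ℂ), Summable (fun s => ‖f s‖) →
      Summable (fun s => ‖convProd (x j) f s‖) := by
    intro j f hf
    refine Summable.of_nonneg_of_le (fun _ => norm_nonneg _)
      (f := fun s => ∑ u ∈ S, ‖x j u‖ * ‖f (u⁻¹ * s)‖) (fun s => ?_)
      (summable_sum fun u _ => (hsh f hf u).mul_left _)
    rw [hconv]
    refine (norm_sum_le _ _).trans (Finset.sum_le_sum fun u _ => ?_)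
    rw [norm_mul]
  -- the element
  let q : G n → ℂ := fun s => (if s = g then 1 else 0) - (if s = g' then 1 else 0)
  have hq0 : ∀ s, s ∉ ({g, g'} : Finset (G n)) → q s = 0 := by
    intro s hs
    rw [Finset.mem_insert, Finset.mem_singleton, not_or] at hs
    simp [q, hs.1, hs.2]
  have hqs : Summable (fun s => ‖q s‖) :=
    summable_of_ne_finset_zero (s := {g, g'}) fun s hs => by rw [hq0 s hs, norm_zero]
  have hs1 : ∀ (a : G n) (c : G n → ℂ),
      HasSum (fun s => (if s = a then (1 : ℂ) else 0) * c s) (c a) := by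
    intro a c
    have h := hasSum_single (f := fun s => (if s = a then (1 : ℂ) else 0) * c s) a
      (fun b hb => by simp [hb])
    simpa using h
  have hqc : ∀ c : G n → ℂ, ∑' s, q s * c s = c g - c g' := by
    intro c
    have h := ((hs1 g c).sub (hs1 g' c)).tsum_eq
    rw [← h]
    exact tsum_congr fun s => sub_mul _ _ _
  have hqI : InI0 q := by
    refine ⟨hqs, ?_⟩
    have h := hqc (fun _ => 1)
    simpa using h
  have hqm : q ∈ closedRightIdeal x := by
    rw [hEq]
    exact hqI
  have hpos : 0 < ‖φ g - φ g'‖ := norm_pos_iff.2 (sub_ne_zero.2 hg)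
  obtain ⟨f, hf, hlt⟩ := hqm.2 (‖φ g - φ g'‖ / (C + 1)) (div_pos hpos (by linarith))
  have hP : Summable (fun s => ‖∑ j, convProd (x j) (f j) s‖) := by
    refine Summable.of_nonneg_of_le (fun _ => norm_nonneg _)
      (f := fun s => ∑ j, ‖convProd (x j) (f j) s‖) (fun s => norm_sum_le _ _)
      (summable_sum fun j _ => hcs j (f j) (hf j))
  have hd : Summable (fun s => ‖q s - ∑ j, convProd (x j) (f j) s‖) :=
    Summable.of_nonneg_of_le (fun _ => norm_nonneg _) (fun s => norm_sub_le _ _) (hqs.add hP)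
  have hz : ∑' s, (∑ j, convProd (x j) (f j) s) * φ s = 0 := by
    have h1 : ∀ j : Fin k, Summable (fun s => convProd (x j) (f j) s * φ s) :=
      fun j => hφs _ (hcs j (f j) (hf j))
    have h2 : ∑' s, (∑ j, convProd (x j) (f j) s) * φ s =
        ∑ j, ∑' s, convProd (x j) (f j) s * φ s := by
      rw [← Summable.tsum_finsetSum (fun j _ => h1 j)]
      exact tsum_congr fun s => Finset.sum_mul _ _ _
    rw [h2]
    exact Finset.sum_eq_zero fun j _ => hzero j (f j) (hf j)
  have hk1 : φ g - φ g' = ∑' s, (q s - ∑ j, convProd (x j) (f j) s) * φ s := by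
    have h1 := (hφs q hqs).tsum_sub (hφs _ hP)
    rw [hz, sub_zero, hqc] at h1
    rw [← h1]
    exact tsum_congr fun s => (sub_mul _ _ _).symm
  have hk2 : ‖φ g - φ g'‖ ≤ (∑' s, ‖q s - ∑ j, convProd (x j) (f j) s‖) * C := by
    rw [hk1, ← tsum_mul_right]
    refine (norm_tsum_le_tsum_norm ?_).trans (Summable.tsum_le_tsum (fun s => ?_) ?_ ?_)
    · refine Summable.of_nonneg_of_le (fun _ => norm_nonneg _) (fun s => ?_) (hd.mul_right C)
      rw [norm_mul]
      exact mul_le_mul_of_nonneg_left (hC s) (norm_nonneg _)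
    · rw [norm_mul]
      exact mul_le_mul_of_nonneg_left (hC s) (norm_nonneg _)
    · refine Summable.of_nonneg_of_le (fun _ => norm_nonneg _) (fun s => ?_) (hd.mul_right C)
      rw [norm_mul]
      exact mul_le_mul_of_nonneg_left (hC s) (norm_nonneg _)
    · exact hd.mul_right C
  have hk3 : ‖φ g - φ g'‖ ≤ ‖φ g - φ g'‖ / (C + 1) * C :=
    hk2.trans (mul_le_mul_of_nonneg_right hlt.le hC0)
  have hk4 : ‖φ g - φ g'‖ / (C + 1) * C < ‖φ g - φ g'‖ := by
    rw [div_mul_eq_mul_div, div_lt_iff₀ (by linarith)]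
    nlinarith
  linarith

end Pool.Agent.H801R3.Aug
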